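import Pool.Agent.Y237.TC.Fin

/-!
# Compact spaces which are t-embedded in Tychonoff cubes
-/

set_option autoImplicit false

open Set Topology Filter unitInterval

universe u v w

namespace Pool.Agent.Y237.TC

open Pool.Agent.H69R3 Pool.Agent.Y237.TD

lemma cube_not_metrizable {S : Type u} (hS : Cardinal.mk S = Cardinal.aleph 1)
    (h : TopologicalSpace.MetrizableSpace (S → Bool)) : False := by
  have : Uncountable S := by
    rw [← Cardinal.aleph0_lt_mk_iff, hS]
    exact Cardinal.aleph0_lt_aleph_one
  have hn : ¬ CountablyTight (S → Bool) := cube_not_tight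
  refine hn fun A x hx => ?_
  obtain ⟨u, hu, hlim⟩ := mem_closure_iff_seq_limit.1 hx
  refine ⟨range u, ?_, countable_range u,
    mem_closure_of_tendsto hlim (Eventually.of_forall fun n => mem_range_self n)⟩
  rintro _ ⟨n, rfl⟩
  exact hu n

/-- Compact spaces which are t-embedded in a Tychonoff cube have countably many clopen sets, and if
they are not metrizable, one of their components contains the Cantor cube of weight `ω₁`. -/
theorem of_cube {K : Type u} [TopologicalSpace K] [CompactSpace K] [T2Space K] {lam : Type u}
    {e : K → lam → I} (he : IsEmbedding e) (h : TEmbedded (range e)) :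
    Countable C(K, Bool) ∧
      (¬ TopologicalSpace.MetrizableSpace K → ∃ x : K, HasCube (connectedComponent x)) := by
  have hd : TDyadic K := by
    obtain ⟨b, hb, hbs⟩ := exists_nat_bool_continuous_surjective_of_compact unitInterval
    refine ⟨lam × ℕ, lam → I, inferInstance, inferInstance, fun d k => b fun n => d (k, n),
      range e, ?_, ?_, ⟨he.toHomeomorph⟩, h⟩
    · refine continuous_pi fun k => hb.comp ?_
      exact continuous_pi fun n => continuous_apply _
    · intro z
      choose c hc using fun k => hbs (z k)
      exact ⟨fun p => c p.1 p.2, funext fun k => hc k⟩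
  obtain ⟨φ, hφ, hφe⟩ := h
  let H : K ≃ₜ range e := he.toHomeomorph
  let R : Cp K → Cp (range e) := fun f => ⟨fun y => f.1 (H.symm y), f.2.comp H.symm.continuous⟩
  have hR : Continuous R := by
    refine Continuous.subtype_mk (continuous_pi fun y => ?_) _
    exact (continuous_apply (H.symm y)).comp continuous_subtype_val
  have hX : Countable C(K, Bool) := by
    refine countable_clopen e he.continuous (fun f => φ (R f)) (hφ.comp hR) fun f x => ?_
    have h1 := hφe (R f) ⟨e x, x, rfl⟩
    have h2 : H.symm ⟨e x, x, rfl⟩ = x := H.symm_apply_apply x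
    rw [show (φ (R f)).1 (e x) = (φ (R f)).1 ((⟨e x, x, rfl⟩ : range e) : lam → I) from rfl, h1]
    show f.1 (H.symm ⟨e x, x, rfl⟩) = f.1 x
    rw [h2]
  refine ⟨hX, fun hm => cube_in_component hX ?_⟩
  by_contra hcube
  exact hm (metrizable_or hd hcube)

end Pool.Agent.Y237.TC
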