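import Pool.Agent.Y237.TC.Main
import Pool.Agent.Y237.TD.Final

/-!
# Components of t-extral spaces
-/

set_option autoImplicit false

open Set Topology Filter unitInterval

universe u v w

namespace Pool.Agent.Y237.TC

open Pool.Agent.H69R3 Pool.Agent.Y237.TD

/-- A compact space whose `C_p` has a continuous extender to a Tychonoff cube has only countably
many clopen sets. -/
theorem countable_clopen {X : Type v} [TopologicalSpace X] [CompactSpace X] [T2Space X]
    {κ : Type u} (e : X → κ → I) (he : Continuous e) (φ : Cp X → Cp (κ → I)) (hφ : Continuous φ)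
    (hφe : ∀ f x, (φ f).1 (e x) = f.1 x) : Countable C(X, Bool) := by
  classical
  rcases isEmpty_or_nonempty X with hE | hN
  · have : Subsingleton C(X, Bool) := ⟨fun f g => ContinuousMap.ext fun x => (hE.false x).elim⟩
    infer_instance
  let π : C(X, ConnectedComponents X) := ⟨ConnectedComponents.mk, ConnectedComponents.continuous_coe⟩
  have hπs : Function.Surjective π := ConnectedComponents.surjective_coe
  have : Nonempty (ConnectedComponents X) := hN.map π
  let ind : C(ConnectedComponents X, Bool) → Cp X := fun g =>
    ⟨fun x => if g (π x) then 1 else 0, by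
      have h : Continuous fun b : Bool => (if b then (1 : ℝ) else 0) :=
        continuous_of_discreteTopology
      exact h.comp (g.continuous.comp π.continuous)⟩
  have hc : Countable C(ConnectedComponents X, Bool) := by
    refine mainZ π hπs e he (fun y g => (φ (ind g)).1 y) (fun g => (φ (ind g)).2) ?_ ?_
    · intro y g ε hε
      have hcont : Continuous fun f : Cp X => |(φ f).1 y - (φ (ind g)).1 y| :=
        ((((continuous_apply y).comp continuous_subtype_val).comp hφ).sub continuous_const).abs
      have hopen : IsOpen {f : Cp X | |(φ f).1 y - (φ (ind g)).1 y| < ε} :=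
        isOpen_lt hcont continuous_const
      rw [isOpen_induced_iff] at hopen
      obtain ⟨V, hV, hVU⟩ := hopen
      have hmem : (ind g).1 ∈ V := by
        have : ind g ∈ (Subtype.val ⁻¹' V : Set (Cp X)) := by
          rw [hVU]
          simpa using hε
        exact this
      obtain ⟨K, hK⟩ := Pool.Agent.H151.basic_nhd hV hmem
      refine ⟨K.image π, fun g' hg' => ?_⟩
      have h1 : (ind g').1 ∈ V := hK _ fun x hx => by
        simp only [ind, hg' (π x) (Finset.mem_image_of_mem π hx)]
      have h2 : ind g' ∈ (Subtype.val ⁻¹' V : Set (Cp X)) := h1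
      rw [hVU] at h2
      exact h2
    · intro x g
      exact hφe (ind g) x
  have hlift : ∀ g : C(X, Bool), ∃ g' : C(ConnectedComponents X, Bool), g = g'.comp π := by
    intro g
    refine ⟨⟨g.continuous.connectedComponentsLift, g.continuous.connectedComponentsLift_continuous⟩,
      ?_⟩
    ext x
    rfl
  choose L hL using hlift
  have hinj : Function.Injective L := by
    intro g g' h
    rw [hL g, hL g', h]
  exact hinj.countable

/-- clopen functions on a Cantor cube depend on finitely many coordinates -/
lemma depends {S : Type w} (f : C(S → Bool, Bool)) :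
    ∃ F : Finset S, ∀ d d' : S → Bool, (∀ i ∈ F, d i = d' i) → f d = f d' := by
  classical
  have h1 : ∀ d : S → Bool, ∃ (F : Finset S), ∀ d' : S → Bool, (∀ i ∈ F, d' i = d i) →
      f d' = f d := by
    intro d
    have ho : IsOpen {x | f x = f d} := (isOpen_discrete {f d}).preimage f.continuous
    obtain ⟨F, u, hu, hsub⟩ := isOpen_pi_iff.1 ho d rfl
    refine ⟨F, fun d' hd' => hsub fun i hi => ?_⟩
    rw [hd' i hi]
    exact (hu i hi).2
  choose F hF using h1
  obtain ⟨t, ht⟩ := CompactSpace.elim_nhds_subcover
    (fun d : S → Bool => (F d : Set S).pi fun i => {d i})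
    (fun d => (isOpen_set_pi (F d).finite_toSet fun i _ => isOpen_discrete _).mem_nhds
      fun i _ => rfl)
  refine ⟨t.biUnion F, fun d d' h => ?_⟩
  have hd : d ∈ ⋃ x ∈ t, (F x : Set S).pi fun i => {x i} := by
    rw [ht]
    trivial
  obtain ⟨x, hx, hdx⟩ := mem_iUnion₂.1 hd
  rw [hF x d fun i hi => hdx i hi, hF x d' fun i hi => ?_]
  rw [← h i (Finset.mem_biUnion.2 ⟨x, hx, hi⟩)]
  exact hdx i hi

/-- If `X` has only countably many clopen sets, then the component of `h d` depends only on
countably many coordinates of `d`. -/
theorem component_depends {X : Type v} [TopologicalSpace X] [CompactSpace X] [T2Space X]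
    (hX : Countable C(X, Bool)) {S : Type w} {h : (S → Bool) → X} (hh : Continuous h) :
    ∃ J : Set S, J.Countable ∧ ∀ d d' : S → Bool, (∀ i ∈ J, d i = d' i) →
      h d' ∈ connectedComponent (h d) := by
  choose F hF using fun g : C(X, Bool) => depends (g.comp ⟨h, hh⟩)
  refine ⟨⋃ g, (F g : Set S), countable_iUnion fun g => (F g).countable_toSet,
    fun d d' hd => ?_⟩
  rw [connectedComponent_eq_iInter_isClopen]
  refine mem_iInter.2 fun s => ?_
  have h1 := hF ⟨s.1.boolIndicator, (continuous_boolIndicator_iff_isClopen s.1).2 s.2.1⟩ d d'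
    fun i hi => hd i (mem_iUnion.2 ⟨_, hi⟩)
  have h2 : s.1.boolIndicator (h d) = true := (mem_iff_boolIndicator _ _).1 s.2.2
  exact (mem_iff_boolIndicator _ _).2 (h1.symm.trans h2)

/-- A cube in `X` gives a cube in a component of `X`. -/
theorem cube_in_component {X : Type u} [TopologicalSpace X] [CompactSpace X] [T2Space X]
    (hX : Countable C(X, Bool)) (hc : HasCube X) : ∃ x : X, HasCube (connectedComponent x) := by
  classical
  obtain ⟨S, h, hS, hh⟩ := hc
  obtain ⟨J, hJ, hJc⟩ := component_depends hX hh.continuous
  let ext : ((Jᶜ : Set S) → Bool) → S → Bool := fun d i => if hi : i ∈ Jᶜ then d ⟨i, hi⟩ else false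
  have hext : Continuous ext := by
    refine continuous_pi fun i => ?_
    by_cases hi : i ∈ Jᶜ
    · simp only [ext, dif_pos hi]
      exact continuous_apply _
    · simp only [ext, dif_neg hi]
      exact continuous_const
  have hinj : Function.Injective ext := by
    intro d d' hdd
    funext i
    have h1 := congrFun hdd i.1
    simp only [ext, dif_pos i.2] at h1
    exact h1
  refine ⟨h (fun _ => false), (Jᶜ : Set S), fun d => ⟨h (ext d), hJc _ _ fun i hi => ?_⟩, ?_, ?_⟩
  · have h1 : i ∉ Jᶜ := fun h => h hi
    simp only [ext, dif_neg h1]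
  · have h1 : Cardinal.mk J ≤ Cardinal.aleph0 := Cardinal.le_aleph0_iff_set_countable.2 hJ
    have h2 : Cardinal.mk J < Cardinal.mk S := by
      rw [hS]
      exact h1.trans_lt Cardinal.aleph0_lt_aleph_one
    have : Infinite S := by
      rw [Cardinal.infinite_iff, hS]
      exact Cardinal.aleph0_le_aleph 1
    rw [Cardinal.mk_compl_of_infinite J h2, hS]
  · have hcon : Continuous fun d => (⟨h (ext d), hJc _ _ fun i hi => by
        have h1 : i ∉ Jᶜ := fun h => h hi
        simp only [ext, dif_neg h1]⟩ : connectedComponent (h fun _ => false)) :=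
      (hh.continuous.comp hext).subtype_mk _
    refine (hcon.isClosedEmbedding ?_).isEmbedding
    intro d d' hdd
    exact hinj (hh.injective (congrArg Subtype.val hdd))

/-- Every non-metrizable t-extral space has a component which contains the Cantor cube of weight
`ω₁`. -/
theorem main_component {X : Type u} [TopologicalSpace X] [T35Space X] (h : TExtral X)
    (hm : ¬ TopologicalSpace.MetrizableSpace X) :
    ∃ x : X, HasCube (connectedComponent x) := by
  obtain ⟨hc, κ, e, ψ, he, hψ, hψe⟩ := extral_cube h
  have hX := countable_clopen e he ψ hψ hψe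
  refine cube_in_component hX ?_
  by_contra hcube
  exact hm (metrizable_or (tdyadic_of_extral h).2 hcube)

/-- The clopen sets are countably many if the clopen functions are. -/
lemma clopen_sets {X : Type u} [TopologicalSpace X] (h : Countable C(X, Bool)) :
    {s : Set X | IsClopen s}.Countable := by
  have h1 : {s : Set X | IsClopen s} ⊆ range fun g : C(X, Bool) => {x | g x = true} := by
    intro s hs
    refine ⟨⟨s.boolIndicator, (continuous_boolIndicator_iff_isClopen s).2 hs⟩, ?_⟩
    ext x
    exact (mem_iff_boolIndicator _ _).symm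
  exact (countable_range _).mono h1

end Pool.Agent.Y237.TC
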