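import Mathlib
import Pool.Agent.H151.Main

/-!
# Adaptation of `Pool.Agent.H151.main` to spaces with a totally disconnected quotient

The proof is the one of `Pool.Agent.H151.main`, with the points of the compact space `Y` in place
of the points of its totally disconnected quotient `X` in the conditions on `e`.
-/

set_option autoImplicit false

open Set Topology Filter unitInterval

namespace Pool.Agent.Y237.TC

open Pool.Agent.H151

universe u v w

variable {κ : Type u} {X : Type v} [TopologicalSpace X]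

theorem mainZ {Y : Type w} [TopologicalSpace Y] [CompactSpace Y] (π : C(Y, X))
    (hπ : Function.Surjective π) [Nonempty X] [CompactSpace X] [T2Space X]
    [TotallyDisconnectedSpace X] (e : Y → κ → I) (he : Continuous e) (ψ : (κ → I) → C(X, Bool) → ℝ)
    (h1 : ∀ g, Continuous fun y => ψ y g)
    (h2 : ∀ y g ε, 0 < ε → ∃ K : Finset X, ∀ g' : C(X, Bool), (∀ x ∈ K, g' x = g x) →
      |ψ y g' - ψ y g| < ε)
    (h3 : ∀ x g, ψ (e x) g = if g (π x) then 1 else 0) : Countable C(X, Bool) := by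
  classical
  by_contra hunc
  have hJ0 : ¬ (univ : Set C(X, Bool)).Countable := fun h => hunc (countable_univ_iff.1 h)
  have hu : ∀ g : C(X, Bool), ∃ (F : Finset κ) (n : ℕ), ∀ y y' : κ → I,
      (∀ i ∈ F, dist (y i) (y' i) < 1 / ((n : ℝ) + 1)) → |ψ y g - ψ y' g| < 1 / 16 :=
    fun g => unif (fun y => ψ y g) (h1 g) (1 / 16) (by norm_num)
  choose F n hF using hu
  obtain ⟨J1, R0, -, hJ1, hR0, hdel⟩ := delta_system F univ hJ0
  -- functions which are not constant on a fibre over the root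
  have hJ2 : ¬ {g ∈ J1 | ∃ x x', (∀ i ∈ R0, e x i = e x' i) ∧ g (π x) = false ∧
      g (π x') = true}.Countable := by
    intro hc
    apply hJ1
    have hcf := (countable_factor (fun x => fun i : R0 => e x i)
      (by fun_prop)).preimage_of_injOn (f := fun g : C(X, Bool) => g.comp π) (by
        intro g _ g' _ hgg
        ext x
        obtain ⟨y, rfl⟩ := hπ x
        exact ContinuousMap.congr_fun hgg y)
    refine (hc.union hcf).mono ?_
    intro g hg
    by_cases hex : ∃ x x', (∀ i ∈ R0, e x i = e x' i) ∧ g (π x) = false ∧ g (π x') = true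
    · exact Or.inl ⟨hg, hex⟩
    · right
      intro x x' hxx'
      have h4 : ∀ i ∈ R0, e x i = e x' i := fun i hi => congrFun hxx' ⟨i, hi⟩
      push Not at hex
      show g (π x) = g (π x')
      cases h5 : g (π x)
      · cases h6 : g (π x')
        · rfl
        · exact absurd h6 (hex x x' h4 h5)
      · cases h6 : g (π x')
        · exact absurd h5 (hex x' x (fun i hi => (h4 i hi).symm) h6)
        · rfl
  obtain ⟨n0, hJ3⟩ := uncountable_fiber n _ hJ2
  obtain ⟨m0, hJ4⟩ := uncountable_fiber' (C := ℕ) (fun g m => ∃ x x',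
      (∀ i ∈ R0, e x i = e x' i) ∧ g (π x) = false ∧ g (π x') = true ∧
      dist (fun i : R0 => e x i) (TopologicalSpace.denseSeq (R0 → I) m) < 1 / ((n0 : ℝ) + 1))
      _ hJ3 (by
    rintro g ⟨⟨-, x, x', h4, h5, h6⟩, -⟩
    obtain ⟨_, hd, m, rfl⟩ := Metric.dense_iff.1 (TopologicalSpace.denseRange_denseSeq (R0 → I))
      (fun i : R0 => e x i) (1 / ((n0 : ℝ) + 1)) (by positivity)
    refine ⟨m, x, x', h4, h5, h6, ?_⟩
    rw [dist_comm]
    exact hd)
  set J4 := {g ∈ {g ∈ {g ∈ J1 | ∃ x x', (∀ i ∈ R0, e x i = e x' i) ∧ g (π x) = false ∧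
      g (π x') = true} | n g = n0} | ∃ x x',
      (∀ i ∈ R0, e x i = e x' i) ∧ g (π x) = false ∧ g (π x') = true ∧
      dist (fun i : R0 => e x i) (TopologicalSpace.denseSeq (R0 → I) m0) < 1 / ((n0 : ℝ) + 1)}
    with hJ4def
  let z0 : κ → I := fun i => if h : i ∈ R0 then TopologicalSpace.denseSeq (R0 → I) m0 ⟨i, h⟩ else 0
  -- the two values
  have hP : ∀ g ∈ J4, ∀ (A : Set κ) (z : κ → I), (R0 : Set κ) ⊆ A → z ∈ Box (R0 : Set κ) z0 →
      (∀ i ∈ F g, i ∉ R0 → i ∉ A) →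
      ∃ y0 ∈ Box A z, ∃ y1 ∈ Box A z, |ψ y0 g| ≤ 1 / 16 ∧ |ψ y1 g - 1| ≤ 1 / 16 := by
    rintro g ⟨⟨⟨-, -⟩, hn⟩, x, x', h4, h5, h6, hd⟩ A z hRA hz hFA
    have key : ∀ x'' : Y, (∀ i ∈ R0, e x'' i = e x i) →
        ∃ y ∈ Box A z, |ψ y g - ψ (e x'') g| < 1 / 16 := by
      intro x'' hx''
      refine ⟨fun i => if i ∈ A then z i else e x'' i, fun i hi => by simp [hi], ?_⟩
      apply hF
      intro i hi
      by_cases hiR : i ∈ R0
      · have hiA : i ∈ A := hRA hiR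
        simp only [hiA, if_true]
        rw [hz i hiR, hx'' i hiR]
        have e1 : z0 i = TopologicalSpace.denseSeq (R0 → I) m0 ⟨i, hiR⟩ := by simp [z0, hiR]
        rw [e1, dist_comm, hn]
        exact (dist_le_pi_dist (fun i : R0 => e x i) _ ⟨i, hiR⟩).trans_lt hd
      · have hiA : i ∉ A := hFA i hi hiR
        simp only [hiA, if_false, dist_self]
        positivity
    obtain ⟨y0, hy0, hy0'⟩ := key x fun i _ => rfl
    obtain ⟨y1, hy1, hy1'⟩ := key x' fun i hi => (h4 i hi).symm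
    refine ⟨y0, hy0, y1, hy1, ?_, ?_⟩
    · rw [h3, h5] at hy0'
      simpa using hy0'.le
    · rw [h3, h6] at hy1'
      simpa using hy1'.le
  have hQ : ∀ (g : C(X, Bool)) (A : Set κ) (z y y' : κ → I), (F g : Set κ) ⊆ A → y ∈ Box A z →
      y' ∈ Box A z → |ψ y g - ψ y' g| < 1 / 16 := by
    intro g A z y y' hFA hy hy'
    apply hF
    intro i hi
    rw [hy i (hFA hi), hy' i (hFA hi), dist_self]
    positivity
  -- the family of certified conditions
  let V := {a : C(X, Bool) × Set κ × (κ → I) × Finset X // a.1 ∈ J4 ∧ a.2.1.Countable ∧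
    (R0 : Set κ) ⊆ a.2.1 ∧ a.2.2.1 ∈ Box (R0 : Set κ) z0 ∧ (F a.1 : Set κ) ⊆ a.2.1 ∧
    ∀ y ∈ Box a.2.1 a.2.2.1, Cert ψ (1 / 16) a.1 y a.2.2.2}
  let r : V → V → Prop := fun a b => a.1.1 ≠ b.1.1 ∧
    ∀ i, i ∈ a.1.2.1 → i ∈ b.1.2.1 → a.1.2.2.1 i = b.1.2.2.1 i
  let E : Set V := maxChain r
  have hE : IsMaxChain r E := maxChain_spec
  have hEr : ∀ a ∈ E, ∀ b ∈ E, a ≠ b → a.1.1 ≠ b.1.1 ∧
      ∀ i, i ∈ a.1.2.1 → i ∈ b.1.2.1 → a.1.2.2.1 i = b.1.2.2.1 i := by
    intro a ha b hb hab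
    rcases hE.1 ha hb hab with h | h
    · exact h
    · exact ⟨h.1.symm, fun i hi hi' => (h.2 i hi' hi).symm⟩
  -- the common point
  obtain ⟨zs, hzs, hzs0⟩ : ∃ zs : κ → I, (∀ a ∈ E, zs ∈ Box a.1.2.1 a.1.2.2.1) ∧
      zs ∈ Box (R0 : Set κ) z0 := by
    let zs : κ → I := fun i => if h : ∃ a ∈ E, i ∈ a.1.2.1 then h.choose.1.2.2.1 i else z0 i
    have h5 : ∀ a ∈ E, zs ∈ Box a.1.2.1 a.1.2.2.1 := by
      intro a ha i hi
      have h : ∃ a ∈ E, i ∈ a.1.2.1 := ⟨a, ha, hi⟩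
      have e1 : zs i = h.choose.1.2.2.1 i := by simp only [zs, dif_pos h]
      rw [e1]
      by_cases hne : h.choose = a
      · rw [hne]
      · exact (hEr _ h.choose_spec.1 a ha hne).2 i h.choose_spec.2 hi
    refine ⟨zs, h5, ?_⟩
    intro i hi
    by_cases h : ∃ a ∈ E, i ∈ a.1.2.1
    · obtain ⟨a, ha, hia⟩ := h
      rw [h5 a ha i hia]
      exact a.2.2.2.2.1 i hi
    · simp only [zs, dif_neg h]
  -- `E` is uncountable
  have hEunc : ¬ E.Countable := by
    intro hEc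
    have h5 : ¬ (J4 \ (fun a : V => a.1.1) '' E).Countable := by
      intro h
      apply hJ4
      refine (h.union (hEc.image (fun a : V => a.1.1))).mono ?_
      intro g hg
      by_cases h' : g ∈ (fun a : V => a.1.1) '' E
      · exact Or.inr h'
      · exact Or.inl ⟨hg, h'⟩
    obtain ⟨g, hg, hgE⟩ : (J4 \ (fun a : V => a.1.1) '' E).Nonempty := by
      by_contra h
      rw [not_nonempty_iff_eq_empty] at h
      rw [h] at h5
      exact h5 countable_empty
    let AE : Set κ := (R0 : Set κ) ∪ (F g : Set κ) ∪ ⋃ a ∈ E, a.1.2.1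
    have hAE : AE.Countable := (R0.countable_toSet.union (F g).countable_toSet).union
      (hEc.biUnion fun a _ => a.2.2.1)
    obtain ⟨A, z, K, hA, hAA, hz, hK⟩ := certify ψ h1 h2 (1 / 16) (by norm_num) g AE hAE zs
    have hR0A : (R0 : Set κ) ⊆ A := (subset_union_left.trans subset_union_left).trans hAA
    have hFA : (F g : Set κ) ⊆ A := (subset_union_right.trans subset_union_left).trans hAA
    have hz0 : z ∈ Box (R0 : Set κ) z0 := fun i hi =>
      (hz i (Or.inl (Or.inl hi))).trans (hzs0 i hi)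
    let b : V := ⟨(g, A, z, K), hg, hA, hR0A, hz0, hFA, hK⟩
    have hbE : b ∉ E := fun h => hgE ⟨b, h, rfl⟩
    have hchain : IsChain r (insert b E) := by
      refine hE.1.insert ?_
      intro a ha hne
      left
      refine ⟨fun h => hgE ⟨a, ha, h.symm⟩, ?_⟩
      intro i hi hia
      have e1 : z i = zs i := hz i (Or.inr (mem_biUnion ha hia))
      show z i = a.1.2.2.1 i
      rw [e1]
      exact hzs a ha i hia
    have := hE.2 hchain (subset_insert b E)
    apply hbE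
    rw [this]
    exact mem_insert b E
  -- thinning out
  obtain ⟨J5, R, hJ5E, hJ5, -, hdelK⟩ := delta_system (fun a : V => a.1.2.2.2) E hEunc
  obtain ⟨s, hJ6⟩ := uncountable_fiber (fun a : V => fun x : R => a.1.1 (x : X)) _ hJ5
  obtain ⟨c, hJ7⟩ := uncountable_fiber (fun a : V => ⌊ψ a.1.2.2.1 a.1.1 * 16⌋) _ hJ6
  set J7 := {a ∈ {a ∈ J5 | (fun x : R => a.1.1 (x : X)) = s} | ⌊ψ a.1.2.2.1 a.1.1 * 16⌋ = c}
    with hJ7def
  have hJ7E : ∀ a ∈ J7, a ∈ E := fun a ha => hJ5E ha.1.1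
  have hJ7inf : J7.Infinite := fun h => hJ7 h.countable
  let a : ℕ → V := fun k => (hJ7inf.natEmbedding J7 k).1
  have ha7 : ∀ k, a k ∈ J7 := fun k => (hJ7inf.natEmbedding J7 k).2
  have hainj : Function.Injective a := Subtype.val_injective.comp
    (hJ7inf.natEmbedding J7).injective
  let Aω : Set κ := (R0 : Set κ) ∪ ⋃ k, (a k).1.2.1
  have hAω : Aω.Countable := R0.countable_toSet.union (countable_iUnion fun k => (a k).2.2.1)
  -- a further element
  have h8 : {b ∈ J7 | ¬ ∀ i ∈ F b.1.1, i ∉ R0 → i ∉ Aω}.Countable := by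
    refine (hAω.biUnion (t := fun i _ => {b ∈ J7 | i ∈ F b.1.1 ∧ i ∉ R0}) fun i _ =>
      Set.Subsingleton.countable ?_).mono ?_
    · rintro b ⟨hb, hbi, hiR⟩ b' ⟨hb', hbi', -⟩
      by_contra hne
      have hg : b.1.1 ≠ b'.1.1 := (hEr b (hJ7E b hb) b' (hJ7E b' hb') hne).1
      exact hiR (hdel _ b.2.1.1.1.1 _ b'.2.1.1.1.1 hg i hbi hbi')
    · rintro b ⟨hb, h⟩
      push Not at h
      obtain ⟨i, hi, hiR, hiA⟩ := h
      exact mem_biUnion hiA ⟨hb, hi, hiR⟩
  obtain ⟨b, hb, hbF⟩ : ∃ b ∈ J7, ∀ i ∈ F b.1.1, i ∉ R0 → i ∉ Aω := by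
    by_contra hcon
    push Not at hcon
    apply hJ7
    refine h8.mono ?_
    intro b hb
    refine ⟨hb, ?_⟩
    push Not
    exact hcon b hb
  have hclose : ∀ y ∈ Box Aω zs, |ψ y b.1.1 - c / 16| ≤ 1 / 4 := by
    intro y hy
    obtain ⟨L, hL⟩ := h2 y b.1.1 (1 / 16) (by norm_num)
    obtain ⟨k, hk⟩ : ∃ k, ∀ x ∈ (a k).1.2.2.2, x ∈ L → x ∈ R := by
      by_contra hcon
      push Not at hcon
      choose x hxK hxL hxR using hcon
      have hinj : Function.Injective (fun k => (⟨x k, hxL k⟩ : L)) := by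
        intro k k' hkk'
        by_contra hne
        have hxx : x k = x k' := congrArg Subtype.val hkk'
        refine hxR k (hdelK (a k) (ha7 k).1.1 (a k') (ha7 k').1.1 (fun h => hne (hainj h)) (x k)
          (hxK k) ?_)
        rw [hxx]
        exact hxK k'
      exact not_injective_infinite_finite _ hinj
    have hgk : ∀ x ∈ R, (a k).1.1 x = b.1.1 x := by
      intro x hx
      have e1 := congrFun (ha7 k).1.2 ⟨x, hx⟩
      have e2 := congrFun hb.1.2 ⟨x, hx⟩
      exact e1.trans e2.symm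
    obtain ⟨g'', hg1, hg2⟩ := interp (a k).1.2.2.2 L (a k).1.1 b.1.1
      fun x hx hxL => hgk x (hk x hx hxL)
    have hyk : y ∈ Box (a k).1.2.1 (a k).1.2.2.1 := by
      intro i hi
      rw [hy i (Or.inr (mem_iUnion.2 ⟨k, hi⟩))]
      exact hzs (a k) (hJ7E _ (ha7 k)) i hi
    have e1 : |ψ y g'' - ψ y (a k).1.1| ≤ 1 / 16 := (a k).2.2.2.2.2.2 y hyk g'' hg1
    have e2 : |ψ y g'' - ψ y b.1.1| < 1 / 16 := hL g'' hg2
    have e3 : |ψ y (a k).1.1 - ψ (a k).1.2.2.1 (a k).1.1| < 1 / 16 :=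
      hQ _ _ _ _ _ (a k).2.2.2.2.2.1 hyk (Box.self _ _)
    have e4 := (Int.floor_eq_iff.1 (ha7 k).2)
    rw [abs_le] at e1 ⊢
    rw [abs_lt] at e2 e3
    constructor <;> linarith [e1.1, e1.2, e2.1, e2.2, e3.1, e3.2, e4.1, e4.2]
  obtain ⟨y0, hy0, y1, hy1, hv0, hv1⟩ := hP b.1.1 b.2.1 Aω zs subset_union_left hzs0 hbF
  have e0 := hclose y0 hy0
  have e1 := hclose y1 hy1
  rw [abs_le] at e0 e1 hv0 hv1
  linarith [e0.1, e0.2, e1.1, e1.2, hv0.1, hv0.2, hv1.1, hv1.2]

end Pool.Agent.Y237.TC
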